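import Pool.Agent.H28.MCB.Targets

/-!
Row LOB of the board mlb_modules (MP_c59857_nt): the trivial bound from below for a family of
intervals.
-/

set_option autoImplicit false

open Pool.Agent.H28.MCL Pool.Agent.H28.MCB

namespace Pool.Agent.H82.MCB

theorem lob (h : T_LOW) : T_LOB := by
  intro m q W ζ hq hW hqW hζ
  obtain ⟨K, hK⟩ := h m q W ζ hq hW hqW hζ
  refine ⟨K, ?_⟩
  intro n₀ τ A g hA hAt hg N T I hI hKT
  have e1 : mm q W A (len I) T = ∑ J ∈ I, mm q W A (J.2 - J.1) T := by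
    unfold mm len
    rw [← Finset.sum_mul, ← Finset.sum_div, Nat.cast_sum]
  rw [e1, Finset.mul_sum]
  unfold rhI
  refine Finset.sum_le_sum fun J hJ => ?_
  refine hK n₀ τ A g hA hAt hg J.2 (J.2 - J.1) T ?_ (Nat.sub_le _ _) hKT
  have := (hI.1 J hJ).1
  omega

end Pool.Agent.H82.MCB
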